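import Pool.Agent.Helper51.PP.Spec

/-!
# Swarm PC, part HK: heat kernel upper bound from Nash's inequality
-/

set_option autoImplicit false

namespace Pool.Agent.Helper24.PC.HK

open Pool.Agent.Helper51.PP
open Filter Topology
open scoped BigOperators

theorem main (h1 : S_CH1) (h2 : S_CH2) (h3 : S_CH3) (h4 : S_CH4) (hN : S_NASH) (hG : S_GEO1) :
    S_HK := by
  intro d hd
  have hd0 : (0 : ℝ) < d := by
    have : 0 < d := by omega
    exact_mod_cast this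
  have : Nonempty (Fin d × Bool) := ⟨(⟨0, by omega⟩, true)⟩
  set k : ℝ := (Fintype.card (Fin d × Bool) : ℝ) with hk
  have hk0 : 0 < k := by
    rw [hk]
    exact_mod_cast Fintype.card_pos
  set c : ℝ := (2 * k ^ 2)⁻¹ * (8 * (d : ℝ))⁻¹ with hc
  have hc0 : 0 < c := by rw [hc]; positivity
  obtain ⟨C, hC0, hC⟩ := h4 d hd c hc0
  refine ⟨C * 3 ^ ((d : ℝ) / 2) + 1, by positivity, ?_⟩
  intro ω hω
  have hrev := hG d ω hω
  -- the squares
  have key : ∀ (x : Occ ω) (n : ℕ), 1 ≤ n →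
      ∑' y, (pk (nxO ω hω) x n y) ^ 2 ≤ C * (n : ℝ) ^ (-((d : ℝ) / 2)) := by
    intro x
    refine hC (fun n => ∑' y, (pk (nxO ω hω) x n y) ^ 2)
      (fun n => tsum_nonneg fun y => sq_nonneg _) ?_
    intro n
    obtain ⟨hp0, hfin, hsum, -, -, -⟩ := h1 (nxO ω hω) revD hrev x n
    have hE := (h2 (nxO ω hω) revD hrev (pk (nxO ω hω) x n) hfin).2
    have hNa := hN d hd ω hω (pk (nxO ω hω) x n) hfin
    have habs : ∑' y, |pk (nxO ω hω) x n y| = 1 := by
      rw [← hsum]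
      exact tsum_congr fun y => abs_of_nonneg (hp0 y)
    rw [habs, Real.one_rpow, mul_one] at hNa
    have hstep : pk (nxO ω hω) x (n + 1) = PR (nxO ω hω) (pk (nxO ω hω) x n) := rfl
    show c * (∑' y, (pk (nxO ω hω) x n y) ^ 2) ^ (1 + 2 / (d : ℝ)) ≤
      ∑' y, (pk (nxO ω hω) x n y) ^ 2 - ∑' y, (pk (nxO ω hω) x (n + 1) y) ^ 2
    rw [hstep]
    have h5 : (8 * (d : ℝ))⁻¹ * (∑' y, (pk (nxO ω hω) x n y) ^ 2) ^ (1 + 2 / (d : ℝ)) ≤
        ∑ e, ∑' y, (pk (nxO ω hω) x n (nxO ω hω (nxO ω hω y e) e) - pk (nxO ω hω) x n y) ^ 2 := by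
      rw [inv_mul_le_iff₀ (by positivity)]
      exact hNa
    have h6 : c * (∑' y, (pk (nxO ω hω) x n y) ^ 2) ^ (1 + 2 / (d : ℝ)) ≤ (2 * k ^ 2)⁻¹ *
        ∑ e, ∑' y, (pk (nxO ω hω) x n (nxO ω hω (nxO ω hω y e) e) - pk (nxO ω hω) x n y) ^ 2 := by
      rw [hc, mul_assoc]
      exact mul_le_mul_of_nonneg_left h5 (by positivity)
    linarith
  intro x0 N hN1 y
  have hpow3 : (0 : ℝ) < 3 ^ ((d : ℝ) / 2) := by positivity
  rcases Nat.lt_or_ge N 2 with hN2 | hN2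
  · have : N = 1 := by omega
    subst this
    obtain ⟨hp0, hfin, hsum, -, -, -⟩ := h1 (nxO ω hω) revD hrev x0 1
    have hs : Summable (pk (nxO ω hω) x0 1) := summable_of_finite_support hfin
    have hle : pk (nxO ω hω) x0 1 y ≤ 1 := by
      rw [← hsum]
      exact hs.le_tsum y (fun z _ => hp0 z)
    have : ((1 : ℕ) : ℝ) ^ (-((d : ℝ) / 2)) = 1 := by
      rw [Nat.cast_one, Real.one_rpow]
    rw [this, mul_one]
    have : 0 < C * 3 ^ ((d : ℝ) / 2) := by positivity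
    linarith
  · have hN0 : (0 : ℝ) < N := by
      have : 0 < N := by omega
      exact_mod_cast this
    set A : ℝ := ((N : ℝ) / 3) ^ (-((d : ℝ) / 2)) with hA
    have hA0 : 0 ≤ A := by positivity
    have hneg : -((d : ℝ) / 2) ≤ 0 := by
      have : 0 ≤ (d : ℝ) / 2 := by positivity
      linarith
    have hm : ∀ m : ℕ, N ≤ 3 * m → (m : ℝ) ^ (-((d : ℝ) / 2)) ≤ A := by
      intro m hm
      refine Real.rpow_le_rpow_of_nonpos (by positivity) ?_ hneg
      have : (N : ℝ) ≤ 3 * m := by exact_mod_cast hm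
      linarith
    have hsplit : N = N / 2 + (N - N / 2) := by omega
    have h7 := h3 (nxO ω hω) revD hrev x0 y (N / 2) (N - N / 2)
    rw [← hsplit] at h7
    have h8 : ∑' z, (pk (nxO ω hω) x0 (N / 2) z) ^ 2 ≤ C * A :=
      (key x0 (N / 2) (by omega)).trans (mul_le_mul_of_nonneg_left (hm _ (by omega)) hC0.le)
    have h9 : ∑' z, (pk (nxO ω hω) y (N - N / 2) z) ^ 2 ≤ C * A :=
      (key y (N - N / 2) (by omega)).trans (mul_le_mul_of_nonneg_left (hm _ (by omega)) hC0.le)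
    have h10 : pk (nxO ω hω) x0 N y ≤ C * A := by
      refine h7.trans ?_
      calc √(∑' z, (pk (nxO ω hω) x0 (N / 2) z) ^ 2) * √(∑' z, (pk (nxO ω hω) y (N - N / 2) z) ^ 2)
          ≤ √(C * A) * √(C * A) :=
            mul_le_mul (Real.sqrt_le_sqrt h8) (Real.sqrt_le_sqrt h9) (Real.sqrt_nonneg _)
              (Real.sqrt_nonneg _)
        _ = C * A := Real.mul_self_sqrt (by positivity)
    have hA' : A = 3 ^ ((d : ℝ) / 2) * (N : ℝ) ^ (-((d : ℝ) / 2)) := by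
      rw [hA, Real.div_rpow hN0.le (by norm_num), Real.rpow_neg (by norm_num : (0 : ℝ) ≤ 3),
        div_inv_eq_mul, mul_comm]
    have hNp : 0 ≤ (N : ℝ) ^ (-((d : ℝ) / 2)) := by positivity
    calc pk (nxO ω hω) x0 N y ≤ C * A := h10
      _ = C * 3 ^ ((d : ℝ) / 2) * (N : ℝ) ^ (-((d : ℝ) / 2)) := by rw [hA', mul_assoc]
      _ ≤ (C * 3 ^ ((d : ℝ) / 2) + 1) * (N : ℝ) ^ (-((d : ℝ) / 2)) := by
          rw [add_mul, one_mul]
          linarith

end Pool.Agent.Helper24.PC.HK
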